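import Pool.Agent.V7H42.TW.Defs

set_option autoImplicit false

namespace Pool.Agent.V7H42.TW

open Finset

namespace Circuit

variable {X K : Type*} {C : Circuit X K}

theorem On.congr {x z : X → Bool} {k : K} (h : C.On x k)
    (hz : ∀ v, C.Occurs v k → x v = z v) : C.On z k := by
  induction h with
  | lit h1 h2 => exact .lit h1 (by rw [← hz _ (.lit h1)]; exact h2)
  | top h1 => exact .top h1
  | and h1 _ _ ih1 ih2 =>
    exact .and h1 (ih1 fun v hv => hz v (.left h1 hv)) (ih2 fun v hv => hz v (.right h1 hv))
  | or h1 h2 _ ih => exact .or h1 h2 (ih fun v hv => hz v (.or h1 h2 hv))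

theorem On.and_inv {x : X → Bool} {k i j : K} (h : C.On x k) (hk : C.node k = .and i j) :
    C.On x i ∧ C.On x j := by
  cases h with
  | lit h1 h2 => rw [hk] at h1; cases h1
  | top h1 => rw [hk] at h1; cases h1
  | and h1 h2 h3 => rw [hk] at h1; cases h1; exact ⟨h2, h3⟩
  | or h1 h2 h3 => rw [hk] at h1; cases h1

theorem On.or_inv {x : X → Bool} {k : K} {l : List K} (h : C.On x k) (hk : C.node k = .or l) :
    ∃ i ∈ l, C.On x i := by
  cases h with
  | lit h1 h2 => rw [hk] at h1; cases h1
  | top h1 => rw [hk] at h1; cases h1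
  | and h1 h2 h3 => rw [hk] at h1; cases h1
  | or h1 h2 h3 => rw [hk] at h1; cases h1; exact ⟨_, h2, h3⟩

theorem Occurs.and_inv {v : X} {k i j : K} (h : C.Occurs v k) (hk : C.node k = .and i j) :
    C.Occurs v i ∨ C.Occurs v j := by
  cases h with
  | lit h1 => rw [hk] at h1; cases h1
  | left h1 h2 => rw [hk] at h1; cases h1; exact .inl h2
  | right h1 h2 => rw [hk] at h1; cases h1; exact .inr h2
  | or h1 h2 h3 => rw [hk] at h1; cases h1

theorem Occurs.lit_inv {v w : X} {b : Bool} {k : K} (h : C.Occurs v k)
    (hk : C.node k = .lit w b) : v = w := by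
  cases h with
  | lit h1 => rw [hk] at h1; cases h1; rfl
  | left h1 h2 => rw [hk] at h1; cases h1
  | right h1 h2 => rw [hk] at h1; cases h1
  | or h1 h2 h3 => rw [hk] at h1; cases h1

theorem Occurs.top_inv {v : X} {k : K} (h : C.Occurs v k) (hk : C.node k = .top) : False := by
  cases h with
  | lit h1 => rw [hk] at h1; cases h1
  | left h1 h2 => rw [hk] at h1; cases h1
  | right h1 h2 => rw [hk] at h1; cases h1
  | or h1 h2 h3 => rw [hk] at h1; cases h1

/-- The node `k` is used by an accepting computation on `x`. -/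
inductive Ctx (C : Circuit X K) (x : X → Bool) : K → Prop
  | out : C.On x C.out → Ctx C x C.out
  | left {k i j : K} : Ctx C x k → C.node k = .and i j → C.On x i → C.On x j → Ctx C x i
  | right {k i j : K} : Ctx C x k → C.node k = .and i j → C.On x i → C.On x j → Ctx C x j
  | or {k i : K} {l : List K} : Ctx C x k → C.node k = .or l → i ∈ l → C.On x i → Ctx C x i

theorem Ctx.on {x : X → Bool} {k : K} (h : C.Ctx x k) : C.On x k := by
  cases h with
  | out h => exact h
  | left _ _ h _ => exact h
  | right _ _ _ h => exact h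
  | or _ _ _ h => exact h

theorem Ctx.swap (hd : C.Decomposable) {x z : X → Bool} {g : K} (h : C.Ctx x g)
    (hz : ∀ v, ¬ C.Occurs v g → z v = x v) (hon : C.On z g) : C.On z C.out := by
  induction h with
  | out _ => exact hon
  | @left k i j _ h1 h2 h3 ih =>
    refine ih (fun v hv => hz v fun h => hv (.left h1 h)) (.and h1 hon (h3.congr fun v hv => ?_))
    exact (hz v fun h => hd k i j h1 v ⟨h, hv⟩).symm
  | @right k i j _ h1 h2 h3 ih =>
    refine ih (fun v hv => hz v fun h => hv (.right h1 h)) (.and h1 (h2.congr fun v hv => ?_) hon)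
    exact (hz v fun h => hd k i j h1 v ⟨hv, h⟩).symm
  | @or k i l _ h1 h2 h3 ih =>
    exact ih (fun v hv => hz v fun h => hv (.or h1 h2 h)) (.or h1 h2 hon)

end Circuit

open Circuit

section CSP

variable {V E D K : Type*} {scope : E → Finset V}

open Classical in
/-- The instance containing all clauses satisfied by `x`. -/
noncomputable def full (scope : E → Finset V) (x : V → D) : Clause scope D → Bool :=
  fun c => decide (c ≠ viol scope x c.1)

theorem full_viol (x y : V → D) (e : E) :
    full scope x (viol scope y e) = false ↔ viol scope y e = viol scope x e := by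
  unfold full
  rw [decide_eq_false_iff_not, not_not]
  exact Iff.rfl

theorem viol_eq {x y : V → D} {e e' : E} (h : viol scope x e = viol scope y e') : e = e' :=
  congrArg Sigma.fst h

theorem viol_val {x y : V → D} {e : E} (h : viol scope x e = viol scope y e) {v : V}
    (hv : v ∈ scope e) : x v = y v := by
  unfold viol at h
  rw [Sigma.mk.inj_iff] at h
  have h2 := eq_of_heq h.2
  exact congrFun h2 ⟨v, hv⟩

theorem sat_full (x : V → D) : Sat scope (full scope x) :=
  ⟨x, fun e => (full_viol x x e).2 rfl⟩

variable (C : Circuit (Clause scope D) K)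

/-- The circuit never accepts an unsatisfiable instance. -/
def Sound : Prop := ∀ I, C.On I C.out → Sat scope I

variable {C}

theorem sat_mix (hd : C.Decomposable) (hs : Sound C) {x y : V → D} {g : K}
    (hx : C.Ctx (full scope x) g) (hy : C.Ctx (full scope y) g) :
    ∃ z : V → D, ∀ e, (C.Occurs (viol scope z e) g → viol scope z e = viol scope y e) ∧
      (¬ C.Occurs (viol scope z e) g → viol scope z e = viol scope x e) := by
  classical
  have h1 : C.On (fun v => if C.Occurs v g then full scope y v else full scope x v) C.out := by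
    refine hx.swap hd (fun v hv => ?_) (hy.on.congr fun v hv => ?_)
    · rw [if_neg hv]
    · rw [if_pos hv]
  obtain ⟨z, hz⟩ := hs _ h1
  refine ⟨z, fun e => ⟨fun h => ?_, fun h => ?_⟩⟩
  · have h2 := hz e
    beta_reduce at h2
    rw [if_pos h] at h2
    exact (full_viol y z e).1 h2
  · have h2 := hz e
    beta_reduce at h2
    rw [if_neg h] at h2
    exact (full_viol x z e).1 h2

theorem side (hd : C.Decomposable) (hs : Sound C) {x y : V → D} {g : K}
    (hx : C.Ctx (full scope x) g) (hy : C.Ctx (full scope y) g) {v : V} (hv : x v ≠ y v)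
    {e₀ : E} (he₀ : v ∈ scope e₀) :
    (∀ e, v ∈ scope e → ¬ C.Occurs (viol scope x e) g) ∨
      ∀ e, v ∈ scope e → C.Occurs (viol scope y e) g := by
  obtain ⟨z, hz⟩ := sat_mix hd hs hx hy
  by_cases h0 : C.Occurs (viol scope z e₀) g
  · right
    intro e he
    have h1 : z v = y v := viol_val ((hz e₀).1 h0) he₀
    by_cases h2 : C.Occurs (viol scope z e) g
    · rw [← (hz e).1 h2]; exact h2
    · exact absurd ((viol_val ((hz e).2 h2) he).symm.trans h1) hv
  · left
    intro e he
    have h1 : z v = x v := viol_val ((hz e₀).2 h0) he₀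
    by_cases h2 : C.Occurs (viol scope z e) g
    · exact absurd (h1.symm.trans (viol_val ((hz e).1 h2) he)) hv
    · rw [← (hz e).2 h2]; exact h2

theorem side' (hd : C.Decomposable) (hs : Sound C) {x y : V → D} {g : K}
    (hx : C.Ctx (full scope x) g) (hy : C.Ctx (full scope y) g) {v : V} (hv : x v ≠ y v)
    {e e' : E} (he : v ∈ scope e) (he' : v ∈ scope e') :
    C.Occurs (viol scope x e) g ↔ C.Occurs (viol scope x e') g := by
  rcases side hd hs hx hy hv he with h | h
  · exact iff_of_false (h e he) (h e' he')
  · rcases side hd hs hy hx (Ne.symm hv) he with h2 | h2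
    · exact absurd (h e he) (h2 e he)
    · exact iff_of_true (h2 e he) (h2 e' he')

open Classical in
/-- the side of the scope `e`: below `i`, below `j`, or elsewhere -/
noncomputable def cls (C : Circuit (Clause scope D) K) (x : V → D) (i j : K) (e : E) : ℕ :=
  if C.Occurs (viol scope x e) i then 0 else if C.Occurs (viol scope x e) j then 1 else 2

open Classical in
/-- the vertices which are in scopes of different sides -/
noncomputable def bag [Fintype V] (C : Circuit (Clause scope D) K) (x : V → D) (i j : K) :
    Finset V :=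
  univ.filter fun v => ∃ e e', v ∈ scope e ∧ v ∈ scope e' ∧ cls C x i j e ≠ cls C x i j e'

theorem mem_bag [Fintype V] {x : V → D} {i j : K} {v : V} :
    v ∈ bag C x i j ↔ ∃ e e', v ∈ scope e ∧ v ∈ scope e' ∧ cls C x i j e ≠ cls C x i j e' := by
  classical
  unfold bag
  simp

theorem agree [Fintype V] (hd : C.Decomposable) (hs : Sound C) {x y : V → D} {k i j : K}
    (hk : C.node k = .and i j) (hx : C.Ctx (full scope x) k) (hy : C.Ctx (full scope y) k)
    {v : V} (hv : v ∈ bag C x i j) : x v = y v := by
  by_contra hne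
  obtain ⟨x1, x2⟩ := hx.on.and_inv hk
  obtain ⟨y1, y2⟩ := hy.on.and_inv hk
  obtain ⟨e, e', he, he', hc⟩ := mem_bag.1 hv
  apply hc
  have h1 := side' hd hs (.left hx hk x1 x2) (.left hy hk y1 y2) hne he he'
  have h2 := side' hd hs (.right hx hk x1 x2) (.right hy hk y1 y2) hne he he'
  unfold cls
  rw [propext h1, propext h2]

theorem not_sat_update [DecidableEq (Clause scope D)] (x : V → D) (e : E) :
    ¬ Sat scope (Function.update (full scope x) (viol scope x e) true) := by
  rintro ⟨y, hy⟩
  have h1 : viol scope y e = viol scope x e := by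
    by_contra h
    have h2 := hy e
    rw [Function.update_of_ne h] at h2
    exact h ((full_viol x y e).1 h2)
  have h2 := hy e
  rw [h1, Function.update_self] at h2
  exact absurd h2 (by decide)

theorem cover_or (hd : C.Decomposable) (hs : Sound C) {x : V → D} {k i : K} {l : List K}
    (hx : C.Ctx (full scope x) k) (hk : C.node k = .or l) (hi : i ∈ l)
    (hon : C.On (full scope x) i) {e : E} (he : C.Occurs (viol scope x e) k) :
    C.Occurs (viol scope x e) i := by
  classical
  by_contra hne
  refine not_sat_update (scope := scope) x e (hs _ (hx.swap hd (fun v hv => ?_)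
    (.or hk hi (hon.congr fun v hv => ?_))))
  · exact Function.update_of_ne (fun h => hv (by rw [h]; exact he)) _ _
  · exact (Function.update_of_ne (fun h => hne (by rw [← h]; exact hv)) _ _).symm

theorem cover_out (hs : Sound C) {x : V → D} (hx : C.On (full scope x) C.out) (e : E) :
    C.Occurs (viol scope x e) C.out := by
  classical
  by_contra hne
  refine not_sat_update (scope := scope) x e (hs _ (hx.congr fun v hv => ?_))
  exact (Function.update_of_ne (fun h => hne (by rw [← h]; exact hv)) _ _).symm

theorem same_side [Fintype V] {F : Set (Set V)} {b : ℕ} (hF : Bramble scope F b) {x : V → D}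
    {i j : K} {B : Set V} (hB : B ∈ F) (hdis : ∀ v ∈ bag C x i j, v ∉ B) {e e' : E}
    (he : ∃ v ∈ scope e, v ∈ B) (he' : ∃ v ∈ scope e', v ∈ B) :
    cls C x i j e = cls C x i j e' := by
  classical
  have hloc : ∀ v ∈ B, ∀ e₁ e₂, v ∈ scope e₁ → v ∈ scope e₂ →
      cls C x i j e₁ = cls C x i j e₂ := by
    intro v hv e₁ e₂ h1 h2
    by_contra hne
    exact hdis v (mem_bag.2 ⟨e₁, e₂, h1, h2, hne⟩) hv
  obtain ⟨v, hv, hvB⟩ := he
  obtain ⟨w, hw, hwB⟩ := he'
  let S : Set V := {u | u ∈ B ∧ ∀ e₁, u ∈ scope e₁ → cls C x i j e₁ = cls C x i j e}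
  have hvS : v ∈ S := ⟨hvB, fun e₁ h1 => hloc v hvB e₁ e h1 hv⟩
  by_cases hS : S = B
  · have h1 : w ∈ S := by rw [hS]; exact hwB
    exact (h1.2 e' hw).symm
  · exfalso
    obtain ⟨e₁, ⟨s, hs1, hs2⟩, t, ht1, ht2, ht3⟩ := hF.conn B hB S (fun u hu => hu.1) ⟨v, hvS⟩ hS
    apply ht3
    refine ⟨ht2, fun e₂ h2 => ?_⟩
    rw [hloc t ht2 e₂ e₁ h2 ht1]
    exact hs2.2 e₁ hs1

theorem exists_gate [Fintype V] (hd : C.Decomposable) (hs : Sound C) {F : Set (Set V)} {b : ℕ}
    (hb : 0 < b) (hF : Bramble scope F b) (hsm : ∀ e, (scope e).card < b) {x : V → D}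
    (hx : C.On (full scope x) C.out) :
    ∃ k i j, C.node k = .and i j ∧ C.Ctx (full scope x) k ∧ b ≤ (bag C x i j).card := by
  by_contra hno
  push Not at hno
  have key : ∀ n : ℕ, ∀ k, C.rank k = n → C.Ctx (full scope x) k → ∀ B ∈ F,
      (∀ e, (∃ v ∈ scope e, v ∈ B) → C.Occurs (viol scope x e) k) → False := by
    intro n
    induction n using Nat.strong_induction_on with
    | _ n ih =>
      intro k hn hk B hB hbel
      match hnode : C.node k with
      | .lit v c =>
        obtain ⟨e₀, he₀, -⟩ := hF.touch B hB B hB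
        obtain ⟨B', hB', hdis⟩ := hF.order (scope e₀) (hsm e₀)
        obtain ⟨e, he, w, hw, hwB⟩ := hF.touch B hB B' hB'
        have h1 := (hbel e₀ he₀).lit_inv hnode
        have h2 := (hbel e he).lit_inv hnode
        have h3 : e = e₀ := viol_eq (h2.trans h1.symm)
        rw [h3] at hw
        exact hdis w hw hwB
      | .top =>
        obtain ⟨e₀, he₀, -⟩ := hF.touch B hB B hB
        exact (hbel e₀ he₀).top_inv hnode
      | .or l =>
        obtain ⟨i, hi, hon⟩ := hk.on.or_inv hnode
        refine ih (C.rank i) (hn ▸ C.rank_or k l hnode i hi) i rfl (.or hk hnode hi hon) B hB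
          fun e he => cover_or hd hs hk hnode hi hon (hbel e he)
      | .and i j =>
        obtain ⟨h1, h2⟩ := hk.on.and_inv hnode
        obtain ⟨r1, r2⟩ := C.rank_and k i j hnode
        obtain ⟨B', hB', hdis⟩ := hF.order _ (hno k i j hnode hk)
        obtain ⟨e₀, he₀, -⟩ := hF.touch B' hB' B' hB'
        have hsame : ∀ e, (∃ v ∈ scope e, v ∈ B') → cls C x i j e = cls C x i j e₀ :=
          fun e he => same_side hF hB' hdis he he₀
        by_cases c1 : C.Occurs (viol scope x e₀) i
        · refine ih (C.rank i) (hn ▸ r1) i rfl (.left hk hnode h1 h2) B' hB' fun e he => ?_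
          have h3 := hsame e he
          unfold cls at h3
          rw [if_pos c1] at h3
          by_contra h4
          rw [if_neg h4] at h3
          split_ifs at h3
        · by_cases c2 : C.Occurs (viol scope x e₀) j
          · refine ih (C.rank j) (hn ▸ r2) j rfl (.right hk hnode h1 h2) B' hB' fun e he => ?_
            have h3 := hsame e he
            unfold cls at h3
            rw [if_neg c1, if_pos c2] at h3
            by_contra h4
            rw [if_neg h4] at h3
            split_ifs at h3
            omega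
          · obtain ⟨e, he, he'⟩ := hF.touch B hB B' hB'
            have h3 := hsame e he'
            unfold cls at h3
            rw [if_neg c1, if_neg c2] at h3
            rcases (hbel e he).and_inv hnode with h4 | h4
            · rw [if_pos h4] at h3
              exact absurd h3 (by decide)
            · rw [if_pos h4] at h3
              split_ifs at h3
              omega
  obtain ⟨B, hB, -⟩ := hF.order ∅ (by simpa using hb)
  exact key _ C.out rfl (.out hx) B hB fun e _ => cover_out hs hx e

end CSP

end Pool.Agent.V7H42.TW
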