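import Pool.Agent.V7H42.TW.Core

set_option autoImplicit false

namespace Pool.Agent.V7H42.TW

open Finset Circuit

variable {V E D K : Type*} {scope : E → Finset V}

theorem card_fiber [Fintype V] [Fintype D] {b : ℕ} (W : Finset V) (hW : b ≤ W.card)
    (x₀ : V → D) (Y : Finset (V → D)) (hY : ∀ y ∈ Y, ∀ v ∈ W, x₀ v = y v) :
    Y.card * Fintype.card D ^ b ≤ Fintype.card D ^ Fintype.card V := by
  classical
  by_cases hD : Fintype.card D = 0
  · have : IsEmpty D := Fintype.card_eq_zero_iff.1 hD
    by_cases hV : Nonempty V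
    · have : IsEmpty (V → D) := ⟨fun f => isEmptyElim (f hV.some)⟩
      rw [Finset.eq_empty_of_isEmpty Y]
      simp
    · rw [not_nonempty_iff] at hV
      have h1 : W.card = 0 := by simp [Finset.eq_empty_of_isEmpty W]
      have h2 : b = 0 := by omega
      subst h2
      have h3 : Fintype.card V = 0 := Fintype.card_eq_zero
      have h4 : Fintype.card (V → D) = 1 := by simp
      have h5 := Finset.card_le_univ Y
      rw [h3, pow_zero, mul_one]
      omega
  · have h1 : Y ⊆ Fintype.piFinset (fun v => if v ∈ W then {x₀ v} else univ) := by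
      intro y hy
      rw [Fintype.mem_piFinset]
      intro v
      split_ifs with h
      · rw [mem_singleton]; exact (hY y hy v h).symm
      · exact mem_univ _
    have h2 := card_le_card h1
    rw [Fintype.card_piFinset] at h2
    have h3 : ∀ v, (if v ∈ W then ({x₀ v} : Finset D) else univ).card =
        if v ∈ W then 1 else Fintype.card D := by
      intro v
      split_ifs
      · simp
      · simp
    simp_rw [h3] at h2
    rw [Finset.prod_ite] at h2
    rw [prod_const_one, one_mul, prod_const] at h2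
    have h4 : (univ.filter fun v => v ∉ W).card = Fintype.card V - W.card := by
      rw [← Finset.card_compl]
      congr 1
      ext v
      simp
    rw [h4] at h2
    have h5 : W.card ≤ Fintype.card V := Finset.card_le_univ W
    calc Y.card * Fintype.card D ^ b
        ≤ Fintype.card D ^ (Fintype.card V - W.card) * Fintype.card D ^ b :=
          Nat.mul_le_mul_right _ h2
      _ = Fintype.card D ^ (Fintype.card V - W.card + b) := by rw [pow_add]
      _ ≤ Fintype.card D ^ Fintype.card V :=
          Nat.pow_le_pow_right (Nat.pos_of_ne_zero hD) (by omega)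

theorem count [Fintype V] [Fintype D] [Finite K] {C : Circuit (Clause scope D) K}
    (hd : C.Decomposable) (hs : Sound C) {F : Set (Set V)} {b : ℕ} (hb : 0 < b)
    (hF : Bramble scope F b) (hsm : ∀ e, (scope e).card < b) (X : Finset (V → D))
    (hX : ∀ x ∈ X, C.On (full scope x) C.out) :
    X.card * Fintype.card D ^ b ≤ C.ands * Fintype.card D ^ Fintype.card V := by
  classical
  let T := {k : K // ∃ i j, C.node k = .and i j}
  have : Fintype T := Fintype.ofFinite T
  rcases X.eq_empty_or_nonempty with rfl | ⟨x₁, hx₁⟩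
  · simp
  have hex : ∀ x ∈ X, ∃ t : T, C.Ctx (full scope x) t.1 ∧
      ∀ i j, C.node t.1 = .and i j → b ≤ (bag C x i j).card := by
    intro x hx
    obtain ⟨k, i, j, hk, h1, h2⟩ := exists_gate hd hs hb hF hsm (hX x hx)
    refine ⟨⟨k, i, j, hk⟩, h1, fun i' j' h => ?_⟩
    have h3 : C.node k = .and i' j' := h
    rw [hk] at h3
    cases h3
    exact h2
  obtain ⟨t₁, -⟩ := hex x₁ hx₁
  have : Nonempty T := ⟨t₁⟩
  choose! f hf using hex
  have hmap : ∀ x ∈ X, f x ∈ (univ : Finset T) := fun _ _ => mem_univ _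
  rw [card_eq_sum_card_fiberwise hmap, sum_mul]
  have hA : C.ands = (univ : Finset T).card := by
    unfold Circuit.ands
    rw [Nat.card_eq_fintype_card, Finset.card_univ]
  rw [hA, ← smul_eq_mul (Finset.card _), ← sum_const]
  refine sum_le_sum fun t _ => ?_
  rcases (X.filter fun x => f x = t).eq_empty_or_nonempty with h0 | ⟨x₀, hx₀⟩
  · rw [h0]; simp
  · rw [mem_filter] at hx₀
    obtain ⟨i, j, hij⟩ := t.2
    have h1 := hf x₀ hx₀.1
    rw [hx₀.2] at h1
    refine card_fiber (bag C x₀ i j) (h1.2 i j hij) x₀ _ fun y hy v hv => ?_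
    rw [mem_filter] at hy
    have h2 := hf y hy.1
    rw [hy.2] at h2
    exact agree hd hs hij h1.1 h2.1 hv

/-- There is a probability distribution (weights `w` on a finite set `Ω`) on decomposable circuits,
each with at most `A` AND nodes, which never accept an unsatisfiable instance, such that every
satisfiable instance is accepted with probability at least `δ`. -/
def Solvable (scope : E → Finset V) (D : Type*) (A δ : ℝ) : Prop :=
  ∃ (Ω : Type) (_ : Fintype Ω) (w : Ω → ℝ) (K : Ω → Type) (_ : ∀ ω, Finite (K ω))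
    (C : ∀ ω, Circuit (Clause scope D) (K ω)),
    (∀ ω, 0 ≤ w ω) ∧ ∑ ω, w ω = 1 ∧ (∀ ω, (C ω).Decomposable) ∧ (∀ ω, ((C ω).ands : ℝ) ≤ A) ∧
    (∀ ω I, (C ω).On I (C ω).out → Sat scope I) ∧
    ∀ I, Sat scope I → δ ≤ ∑ ω, {ω | (C ω).On I (C ω).out}.indicator w ω

theorem lower [Fintype V] [Fintype D] {F : Set (Set V)} {b : ℕ} (hb : 0 < b)
    (hF : Bramble scope F b) (hsm : ∀ e, (scope e).card < b) {A δ : ℝ}
    (h : Solvable scope D A δ) : δ * (Fintype.card D : ℝ) ^ b ≤ A := by
  classical
  obtain ⟨Ω, _, w, K, _, C, hw, hw1, hd, hA, hs, hδ⟩ := h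
  have hA0 : 0 ≤ A := by
    rcases isEmpty_or_nonempty Ω with h0 | ⟨⟨ω⟩⟩
    · rw [Finset.univ_eq_empty, sum_empty] at hw1
      exact absurd hw1 (by norm_num)
    · exact le_trans (Nat.cast_nonneg _) (hA ω)
  by_cases hD : Fintype.card D = 0
  · rw [hD]
    simp [hb.ne', hA0]
  have hq : (0 : ℝ) < Fintype.card D := by exact_mod_cast Nat.pos_of_ne_zero hD
  have h1 : (Fintype.card D : ℝ) ^ Fintype.card V * δ ≤
      ∑ x : V → D, ∑ ω, {ω | (C ω).On (full scope x) (C ω).out}.indicator w ω := by
    have h2 : (Fintype.card D : ℝ) ^ Fintype.card V * δ = ∑ _x : V → D, δ := by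
      rw [sum_const, Finset.card_univ, nsmul_eq_mul, Fintype.card_fun]
      push_cast
      rfl
    rw [h2]
    exact sum_le_sum fun x _ => hδ _ (sat_full x)
  rw [sum_comm] at h1
  have h3 : ∀ ω, ∑ x : V → D, {ω | (C ω).On (full scope x) (C ω).out}.indicator w ω ≤
      w ω * (A * (Fintype.card D : ℝ) ^ Fintype.card V / (Fintype.card D : ℝ) ^ b) := by
    intro ω
    have h4 := count (hd ω) (hs ω) hb hF hsm
      (univ.filter fun x => (C ω).On (full scope x) (C ω).out) fun x hx => (mem_filter.1 hx).2
    have h5 : ∑ x : V → D, {ω | (C ω).On (full scope x) (C ω).out}.indicator w ω =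
        w ω * ((univ.filter fun x : V → D => (C ω).On (full scope x) (C ω).out).card : ℝ) := by
      simp only [Set.indicator_apply, Set.mem_ofPred_eq]
      rw [← sum_filter, sum_const, nsmul_eq_mul, mul_comm]
    rw [h5]
    refine mul_le_mul_of_nonneg_left ?_ (hw ω)
    rw [le_div_iff₀ (by positivity)]
    calc _ ≤ ((C ω).ands : ℝ) * (Fintype.card D : ℝ) ^ Fintype.card V := by exact_mod_cast h4
      _ ≤ _ := mul_le_mul_of_nonneg_right (hA ω) (by positivity)
  have h6 := h1.trans (sum_le_sum fun ω _ => h3 ω)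
  rw [← sum_mul, hw1, one_mul, le_div_iff₀ (by positivity)] at h6
  have h7 : (0 : ℝ) < (Fintype.card D : ℝ) ^ Fintype.card V := by positivity
  nlinarith

end Pool.Agent.V7H42.TW
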