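import Mathlib

/-!
# Decomposable circuits for the satisfiability of constraint systems with given scopes
-/

set_option autoImplicit false

namespace Pool.Agent.V7H42.TW

/-- The nodes of a circuit with set of nodes `K` over the Boolean variables in `X`: the literal
`lit v b` (which is true if the variable `v` has the value `b`), the constant `top`, an AND of two
nodes, or an OR of any number of nodes. -/
inductive Node (X K : Type*)
  | lit (v : X) (b : Bool)
  | top
  | and (i j : K)
  | or (l : List K)

/-- A circuit (an acyclic directed graph of nodes) with output node `out`. -/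
structure Circuit (X K : Type*) where
  node : K → Node X K
  out : K
  rank : K → ℕ
  rank_and : ∀ k i j, node k = .and i j → rank i < rank k ∧ rank j < rank k
  rank_or : ∀ k l, node k = .or l → ∀ i ∈ l, rank i < rank k

namespace Circuit

variable {X K : Type*} (C : Circuit X K)

/-- The node `k` has the value true at the input `x`. -/
inductive On (x : X → Bool) : K → Prop
  | lit {k : K} {v : X} {b : Bool} : C.node k = .lit v b → x v = b → On x k
  | top {k : K} : C.node k = .top → On x k
  | and {k i j : K} : C.node k = .and i j → On x i → On x j → On x k
  | or {k i : K} {l : List K} : C.node k = .or l → i ∈ l → On x i → On x k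

/-- The variable `v` occurs in the subcircuit of the node `k`. -/
inductive Occurs (v : X) : K → Prop
  | lit {k : K} {b : Bool} : C.node k = .lit v b → Occurs v k
  | left {k i j : K} : C.node k = .and i j → Occurs v i → Occurs v k
  | right {k i j : K} : C.node k = .and i j → Occurs v j → Occurs v k
  | or {k i : K} {l : List K} : C.node k = .or l → i ∈ l → Occurs v i → Occurs v k

/-- The circuit is decomposable (a DNNF): the subcircuits of the two inputs of an AND node have no
variable in common. -/
def Decomposable : Prop :=
  ∀ k i j, C.node k = .and i j → ∀ v, ¬ (C.Occurs v i ∧ C.Occurs v j)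

/-- The number of AND nodes. -/
noncomputable def ands : ℕ := Nat.card {k : K // ∃ i j, C.node k = .and i j}

end Circuit

section CSP

variable {V E : Type*} (scope : E → Finset V) (D : Type*)

/-- A possible clause: it forbids that the variables in the scope of `e` have the values `p`. -/
abbrev Clause := Σ e : E, (↥(scope e) → D)

variable {D}

/-- The clause with the scope of `e` which is violated by the assignment `x`. -/
def viol (x : V → D) (e : E) : Clause scope D := ⟨e, fun v => x v⟩

/-- The instance (the set of the clauses `c` with `I c = true`) is satisfiable. -/
def Sat (I : Clause scope D → Bool) : Prop := ∃ x : V → D, ∀ e, I (viol scope x e) = false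

/-- A bramble of order at least `b` of the hypergraph of the scopes: a set of connected vertex
sets, any two of which touch (some scope meets both), such that no set of fewer than `b` vertices
meets all of them. -/
structure Bramble (F : Set (Set V)) (b : ℕ) : Prop where
  conn : ∀ B ∈ F, ∀ S ⊆ B, S.Nonempty → S ≠ B →
    ∃ e, (∃ v ∈ scope e, v ∈ S) ∧ ∃ v ∈ scope e, v ∈ B ∧ v ∉ S
  touch : ∀ B ∈ F, ∀ B' ∈ F, ∃ e, (∃ v ∈ scope e, v ∈ B) ∧ ∃ v ∈ scope e, v ∈ B'
  order : ∀ W : Finset V, W.card < b → ∃ B ∈ F, ∀ v ∈ W, v ∉ B

end CSP

end Pool.Agent.V7H42.TW
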