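import Pool.Agent.V7H42.TW.Count

set_option autoImplicit false

namespace Pool.Agent.V7H42.TW

open Finset

/-- some member of `H` meets both of any two sets with at least `n / 8` elements -/
def Exp (n : ℕ) (H : Finset (Finset (Fin n))) : Prop :=
  ∀ A B : Finset (Fin n), n ≤ 8 * A.card → n ≤ 8 * B.card →
    ∃ e ∈ H, (∃ v ∈ e, v ∈ A) ∧ ∃ v ∈ e, v ∈ B

theorem exists_pairs (n : ℕ) (hn : 0 < n) : ∃ f : Fin (100 * n) → Fin n × Fin n,
    ∀ A B : Finset (Fin n), n ≤ 8 * A.card → n ≤ 8 * B.card → ∃ e, f e ∈ A ×ˢ B := by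
  classical
  by_contra hno
  push Not at hno
  let P : Finset (Finset (Fin n) × Finset (Fin n)) :=
    univ.filter fun p => n ≤ 8 * p.1.card ∧ n ≤ 8 * p.2.card
  let bad : Finset (Fin n) × Finset (Fin n) → Finset (Fin (100 * n) → Fin n × Fin n) :=
    fun p => Fintype.piFinset fun _ => (p.1 ×ˢ p.2)ᶜ
  have h1 : (univ : Finset (Fin (100 * n) → Fin n × Fin n)) ⊆ P.biUnion bad := by
    intro f _
    obtain ⟨A, B, hA, hB, h⟩ := hno f
    rw [mem_biUnion]
    refine ⟨(A, B), mem_filter.2 ⟨mem_univ _, hA, hB⟩, ?_⟩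
    rw [Fintype.mem_piFinset]
    intro e
    rw [mem_compl]
    exact h e
  have h2 := (card_le_card h1).trans card_biUnion_le
  rw [Finset.card_univ, Fintype.card_fun, Fintype.card_prod, Fintype.card_fin,
    Fintype.card_fin] at h2
  have h3 : ∀ p ∈ P, 64 ^ (100 * n) * (bad p).card ≤ (63 * (n * n)) ^ (100 * n) := by
    intro p hp
    rw [mem_filter] at hp
    rw [Fintype.card_piFinset]
    rw [prod_const, Finset.card_univ, Fintype.card_fin, ← mul_pow]
    refine Nat.pow_le_pow_left ?_ _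
    rw [card_compl, card_product, Fintype.card_prod, Fintype.card_fin]
    have h4 : n * n ≤ 64 * (p.1.card * p.2.card) := by
      calc n * n ≤ (8 * p.1.card) * (8 * p.2.card) := Nat.mul_le_mul hp.2.1 hp.2.2
        _ = _ := by ring
    omega
  have h5 : 64 ^ (100 * n) * (n * n) ^ (100 * n) ≤
      4 ^ n * (63 * (n * n)) ^ (100 * n) := by
    calc 64 ^ (100 * n) * (n * n) ^ (100 * n)
        ≤ 64 ^ (100 * n) * ∑ p ∈ P, (bad p).card := Nat.mul_le_mul_left _ h2
      _ = ∑ p ∈ P, 64 ^ (100 * n) * (bad p).card := by rw [mul_sum]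
      _ ≤ ∑ _p ∈ P, (63 * (n * n)) ^ (100 * n) := sum_le_sum h3
      _ = P.card * (63 * (n * n)) ^ (100 * n) := by rw [sum_const, smul_eq_mul]
      _ ≤ 4 ^ n * (63 * (n * n)) ^ (100 * n) := by
          refine Nat.mul_le_mul_right _ ((card_le_univ P).trans (le_of_eq ?_))
          rw [Fintype.card_prod, Fintype.card_finset, Fintype.card_fin, ← mul_pow]
          norm_num
  rw [mul_pow 63, ← mul_assoc] at h5
  have h6 : 0 < (n * n) ^ (100 * n) := by positivity
  have h7 := Nat.le_of_mul_le_mul_right h5 h6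
  have h8 : (4 * 63 ^ 100) ^ n < (64 ^ 100) ^ n :=
    Nat.pow_lt_pow_left (by norm_num) hn.ne'
  rw [mul_pow, ← pow_mul, ← pow_mul] at h8
  omega

theorem exists_exp (n k : ℕ) (hk : 2 ≤ k) (hkn : k ≤ n) :
    ∃ H : Finset (Finset (Fin n)), (∀ e ∈ H, e.card = k) ∧ H.card ≤ 100 * n ∧ Exp n H := by
  classical
  obtain ⟨f, hf⟩ := exists_pairs n (by omega)
  have hT : ∀ p : Fin n × Fin n, ∃ e : Finset (Fin n), p.1 ∈ e ∧ p.2 ∈ e ∧ e.card = k := by
    intro p
    obtain ⟨e, h1, -, h2⟩ := Finset.exists_subsuperset_card_eq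
      (subset_univ ({p.1, p.2} : Finset (Fin n))) (n := k)
      ((card_le_two).trans hk) (by rw [Finset.card_univ, Fintype.card_fin]; exact hkn)
    exact ⟨e, h1 (by simp), h1 (by simp), h2⟩
  choose T hT1 hT2 hT3 using hT
  refine ⟨univ.image fun e => T (f e), ?_, ?_, ?_⟩
  · intro e he
    rw [mem_image] at he
    obtain ⟨i, -, rfl⟩ := he
    exact hT3 _
  · exact card_image_le.trans (by rw [Finset.card_univ, Fintype.card_fin])
  · intro A B hA hB
    obtain ⟨i, hi⟩ := hf A B hA hB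
    rw [mem_product] at hi
    exact ⟨T (f i), mem_image.2 ⟨i, mem_univ _, rfl⟩, ⟨_, hT1 _, hi.1⟩, _, hT2 _, hi.2⟩

/-- the connected sets with more than `n / 2` elements -/
def Large (n : ℕ) (H : Finset (Finset (Fin n))) : Set (Set (Fin n)) :=
  {B | ∃ C : Finset (Fin n), (C : Set (Fin n)) = B ∧ n < 2 * C.card ∧
    ∀ S ⊆ B, S.Nonempty → S ≠ B →
      ∃ e : H, (∃ v ∈ e.1, v ∈ S) ∧ ∃ v ∈ e.1, v ∈ B ∧ v ∉ S}

theorem bramble_of_exp {n b : ℕ} {H : Finset (Finset (Fin n))} (hH : Exp n H)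
    (hb : 8 * b ≤ 3 * n) (hb0 : 0 < b) :
    Bramble (fun e : H => e.1) (Large n H) b := by
  classical
  refine ⟨?_, ?_, ?_⟩
  · rintro B ⟨C, hC, hC2, hC3⟩ S hS h1 h2
    exact hC3 S hS h1 h2
  · rintro B ⟨C, rfl, hC2, hC3⟩ B' ⟨C', rfl, hC2', hC3'⟩
    have h1 : (C ∩ C').Nonempty := by
      rw [← card_pos]
      have h2 := card_union_add_card_inter C C'
      have h3 := card_le_univ (C ∪ C')
      rw [Fintype.card_fin] at h3
      omega
    obtain ⟨v, hv⟩ := h1
    rw [mem_inter] at hv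
    obtain ⟨e, ⟨w, hw, hw2⟩, -⟩ := hC3 {v} (by simpa using hv.1) (Set.singleton_nonempty v) (by
      intro h
      have h2 : C = {v} := by
        apply Finset.coe_injective
        rw [← h]; simp
      rw [h2, card_singleton] at hC2
      omega)
    rw [Set.mem_singleton_iff] at hw2
    subst hw2
    exact ⟨e, ⟨w, hw, hv.1⟩, w, hw, hv.2⟩
  · intro W hW
    let U := Wᶜ
    have hU : U.card = n - W.card := by rw [card_compl, Fintype.card_fin]
    have hWn : W.card ≤ n := by simpa using card_le_univ W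
    let cl : Finset (Fin n) → Prop := fun C =>
      ∀ e ∈ H, (∃ v ∈ e, v ∈ C) → ∀ v ∈ e, v ∈ U → v ∈ C
    let 𝒞 := U.powerset.filter fun C => cl C ∧ n ≤ 8 * C.card
    have hUC : U ∈ 𝒞 := by
      rw [mem_filter, mem_powerset]
      exact ⟨subset_rfl, fun e _ _ v _ hv => hv, by omega⟩
    obtain ⟨C, hC, hmin⟩ := exists_min_image 𝒞 card ⟨U, hUC⟩
    rw [mem_filter, mem_powerset] at hC
    obtain ⟨hCU, hcl, hCn⟩ := hC
    have hdiff : (U \ C).card = U.card - C.card := card_sdiff_of_subset hCU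
    have hCle := card_le_card hCU
    have hsmall : 8 * (U \ C).card < n := by
      by_contra h
      obtain ⟨e, he, h1, v, hv, hv2⟩ := hH C (U \ C) hCn (by omega)
      rw [mem_sdiff] at hv2
      exact hv2.2 (hcl e he h1 v hv hv2.1)
    refine ⟨(C : Set (Fin n)), ⟨C, rfl, by omega, ?_⟩, ?_⟩
    · intro S hS hSne hSC
      by_contra hno
      push Not at hno
      let S' := C.filter fun v => v ∈ S
      have hS' : ∀ v, v ∈ S' ↔ v ∈ S := by
        intro v
        rw [mem_filter]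
        exact ⟨fun h => h.2, fun h => ⟨hS h, h⟩⟩
      have hS'C : S' ⊆ C := filter_subset _ _
      have hclS : cl S' := by
        rintro e he ⟨u, hu, huS⟩ v hv hvU
        have h1 : v ∈ C := hcl e he ⟨u, hu, hS'C huS⟩ v hv hvU
        rw [hS'] at huS ⊢
        exact hno ⟨e, he⟩ ⟨u, hu, huS⟩ v hv h1
      have hclT : cl (C \ S') := by
        rintro e he ⟨u, hu, huT⟩ v hv hvU
        rw [mem_sdiff] at huT ⊢
        have h1 : v ∈ C := hcl e he ⟨u, hu, huT.1⟩ v hv hvU
        refine ⟨h1, fun h2 => huT.2 ?_⟩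
        rw [hS'] at h2 ⊢
        exact hno ⟨e, he⟩ ⟨v, hv, h2⟩ u hu huT.1
      have hcards : (C \ S').card = C.card - S'.card := card_sdiff_of_subset hS'C
      have hSle := card_le_card hS'C
      have hSpos : 0 < S'.card := by
        obtain ⟨v, hv⟩ := hSne
        exact card_pos.2 ⟨v, (hS' v).2 hv⟩
      have hSlt : S'.card < C.card := by
        refine card_lt_card ⟨hS'C, fun h => hSC ?_⟩
        ext v
        exact ⟨fun h1 => hS h1, fun h1 => (hS' v).1 (h h1)⟩
      have m1 : 8 * S'.card < n := by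
        by_contra h
        have h1 := hmin S' (mem_filter.2 ⟨mem_powerset.2 (hS'C.trans hCU), hclS, by omega⟩)
        omega
      have m2 : 8 * (C \ S').card < n := by
        by_contra h
        have h1 := hmin (C \ S') (mem_filter.2 ⟨mem_powerset.2 (sdiff_subset.trans hCU), hclT,
          by omega⟩)
        omega
      omega
    · intro v hv hvC
      have h1 := hCU (Finset.mem_coe.1 hvC)
      rw [mem_compl] at h1
      exact h1 hv

end Pool.Agent.V7H42.TW
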