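import Pool.Agent.V7H42.TW.Count

set_option autoImplicit false

namespace Pool.Agent.V7H42.TW

open Finset Circuit

section

variable {V E D : Type*} (scope : E → Finset V) (T : Type) (m : ℕ) (en : Fin m ≃ E)
  (L : T → V → D) (ts : List T)

/-- the nodes: the output, the partial conjunctions, and the literals -/
abbrev NK (T : Type) (m : ℕ) := Unit ⊕ (T × Fin (m + 1)) ⊕ (T × Fin m)

/-- The disjunction over `t` of the conjunctions which say that the assignment `L t` violates no
clause. -/
def dnf : Circuit (Clause scope D) (NK T m) where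
  node
    | .inl () => .or (ts.map fun t => .inr (.inl (t, Fin.last m)))
    | .inr (.inl (t, r)) =>
      Fin.cases .top (fun r' => .and (.inr (.inl (t, r'.castSucc))) (.inr (.inr (t, r')))) r
    | .inr (.inr (t, r)) => .lit (viol scope (L t) (en r)) false
  out := .inl ()
  rank
    | .inl () => m + 2
    | .inr (.inl (_, r)) => r + 1
    | .inr (.inr _) => 0
  rank_and := by
    intro k i j h
    match k with
    | .inl () => simp at h
    | .inr (.inl (t, r)) =>
      induction r using Fin.cases with
      | zero => simp at h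
      | succ r' =>
        simp only [Fin.cases_succ, Node.and.injEq] at h
        obtain ⟨rfl, rfl⟩ := h
        simp
    | .inr (.inr (t, r)) => simp at h
  rank_or := by
    intro k l h i hi
    match k with
    | .inl () =>
      simp only [Node.or.injEq] at h
      subst h
      simp only [List.mem_map] at hi
      obtain ⟨t, -, rfl⟩ := hi
      simp
    | .inr (.inl (t, r)) =>
      induction r using Fin.cases with
      | zero => simp at h
      | succ r' => simp at h
    | .inr (.inr (t, r)) => simp at h

variable {scope T m en L ts}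

theorem dnf_node_zero (t : T) :
    (dnf scope T m en L ts).node (.inr (.inl (t, 0))) = .top := rfl

theorem dnf_node_succ (t : T) (r : Fin m) :
    (dnf scope T m en L ts).node (.inr (.inl (t, r.succ))) =
      .and (.inr (.inl (t, r.castSucc))) (.inr (.inr (t, r))) := rfl

theorem dnf_node_lit (t : T) (r : Fin m) :
    (dnf scope T m en L ts).node (.inr (.inr (t, r))) =
      .lit (viol scope (L t) (en r)) false := rfl

theorem dnf_node_out :
    (dnf scope T m en L ts).node (.inl ()) =
      .or (ts.map fun t => .inr (.inl (t, Fin.last m))) := rfl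

theorem On.lit_inv' {X K : Type*} {C : Circuit X K} {x : X → Bool} {k : K} {v : X} {b : Bool}
    (h : C.On x k) (hk : C.node k = .lit v b) : x v = b := by
  cases h with
  | lit h1 h2 => rw [hk] at h1; cases h1; exact h2
  | top h1 => rw [hk] at h1; cases h1
  | and h1 h2 h3 => rw [hk] at h1; cases h1
  | or h1 h2 h3 => rw [hk] at h1; cases h1

theorem dnf_on_pre (I : Clause scope D → Bool) (t : T) (r : Fin (m + 1)) :
    (dnf scope T m en L ts).On I (.inr (.inl (t, r))) ↔
      ∀ r' : Fin m, (r' : ℕ) < r → I (viol scope (L t) (en r')) = false := by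
  induction r using Fin.induction with
  | zero =>
    refine ⟨fun _ r' h => absurd h (by simp), fun _ => .top (dnf_node_zero t)⟩
  | succ r ih =>
    constructor
    · intro h r' hr'
      obtain ⟨h1, h2⟩ := h.and_inv (dnf_node_succ t r)
      rw [Fin.val_succ] at hr'
      rcases Nat.lt_succ_iff_lt_or_eq.1 hr' with h3 | h3
      · exact ih.1 h1 r' (by simpa using h3)
      · have h4 : r' = r := Fin.ext h3
        subst h4
        exact On.lit_inv' h2 (dnf_node_lit t r')
    · intro h
      refine .and (dnf_node_succ t r) (ih.2 fun r' hr' => h r' ?_) (.lit (dnf_node_lit t r) ?_)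
      · rw [Fin.val_succ]
        have : (r' : ℕ) < r := by simpa using hr'
        omega
      · exact h r (by simp)

theorem dnf_on (I : Clause scope D → Bool) :
    (dnf scope T m en L ts).On I (dnf scope T m en L ts).out ↔
      ∃ t ∈ ts, ∀ e, I (viol scope (L t) e) = false := by
  constructor
  · intro h
    obtain ⟨i, hi, h1⟩ := h.or_inv dnf_node_out
    rw [List.mem_map] at hi
    obtain ⟨t, ht, rfl⟩ := hi
    refine ⟨t, ht, fun e => ?_⟩
    have h2 := (dnf_on_pre I t (Fin.last m)).1 h1 (en.symm e) (by simp)
    rwa [Equiv.apply_symm_apply] at h2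
  · rintro ⟨t, ht, h⟩
    exact .or dnf_node_out (List.mem_map.2 ⟨t, ht, rfl⟩)
      ((dnf_on_pre I t (Fin.last m)).2 fun r' _ => h (en r'))

theorem dnf_occurs_pre {v : Clause scope D} {t : T} {r : Fin (m + 1)}
    (h : (dnf scope T m en L ts).Occurs v (.inr (.inl (t, r)))) :
    ∃ r' : Fin m, (r' : ℕ) < r ∧ v = viol scope (L t) (en r') := by
  induction r using Fin.induction with
  | zero => exact (h.top_inv (dnf_node_zero t)).elim
  | succ r ih =>
    rcases h.and_inv (dnf_node_succ t r) with h1 | h1
    · obtain ⟨r', h2, h3⟩ := ih h1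
      refine ⟨r', ?_, h3⟩
      rw [Fin.val_succ]
      have : (r' : ℕ) < r := by simpa using h2
      omega
    · exact ⟨r, by simp, h1.lit_inv (dnf_node_lit t r)⟩

theorem dnf_and {k i j : NK T m} (h : (dnf scope T m en L ts).node k = .and i j) :
    ∃ t r, k = .inr (.inl (t, r.succ)) ∧ i = .inr (.inl (t, r.castSucc)) ∧
      j = .inr (.inr (t, r)) := by
  match k with
  | .inl () => rw [dnf_node_out] at h; cases h
  | .inr (.inl (t, r)) =>
    induction r using Fin.cases with
    | zero => rw [dnf_node_zero] at h; cases h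
    | succ r' =>
      rw [dnf_node_succ, Node.and.injEq] at h
      exact ⟨t, r', rfl, h.1.symm, h.2.symm⟩
  | .inr (.inr (t, r)) => rw [dnf_node_lit] at h; cases h

theorem dnf_decomposable : (dnf scope T m en L ts).Decomposable := by
  rintro k i j h v ⟨h1, h2⟩
  obtain ⟨t, r, rfl, rfl, rfl⟩ := dnf_and h
  obtain ⟨r', h3, h4⟩ := dnf_occurs_pre h1
  have h5 := h2.lit_inv (dnf_node_lit t r)
  have h6 := en.injective (viol_eq (h4.symm.trans h5))
  rw [h6] at h3
  simp at h3

theorem dnf_ands [Finite T] : (dnf scope T m en L ts).ands ≤ Nat.card T * m := by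
  unfold Circuit.ands
  have h1 : Nat.card (T × Fin m) = Nat.card T * m := by
    rw [Nat.card_prod]; simp
  rw [← h1]
  refine Nat.card_le_card_of_surjective
    (fun p : T × Fin m => ⟨.inr (.inl (p.1, p.2.succ)), _, _, dnf_node_succ p.1 p.2⟩) ?_
  rintro ⟨k, i, j, h⟩
  obtain ⟨t, r, rfl, -, -⟩ := dnf_and h
  exact ⟨(t, r), rfl⟩

end

/-- The upper bound: guess `s` assignments. -/
theorem upper {V E D : Type} [Fintype V] [Fintype E] [Fintype D] [Nonempty D]
    (scope : E → Finset V) (s : ℕ)
    (hs : s ≤ Fintype.card D ^ Fintype.card V) :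
    Solvable scope D ((s : ℝ) * Fintype.card E)
      ((s : ℝ) / (Fintype.card D : ℝ) ^ Fintype.card V) := by
  classical
  set N := Fintype.card (V → D) with hN
  have hN' : N = Fintype.card D ^ Fintype.card V := by rw [hN, Fintype.card_fun]
  have hN0 : N ≠ 0 := Fintype.card_ne_zero
  have : NeZero N := ⟨hN0⟩
  have hcard : Fintype.card (V → D) = Fintype.card (ZMod N) := by rw [ZMod.card]
  let φ : (V → D) ≃ ZMod N := Fintype.equivOfCardEq hcard
  obtain ⟨S, -, hS⟩ := Finset.exists_subset_card_eq (s := (univ : Finset (ZMod N))) (n := s)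
    (by rw [Finset.card_univ, ZMod.card, hN']; exact hs)
  let en : Fin (Fintype.card E) ≃ E := (Fintype.equivFin E).symm
  have hNR : (N : ℝ) = (Fintype.card D : ℝ) ^ Fintype.card V := by rw [hN']; push_cast; rfl
  have hNpos : (0 : ℝ) < N := by exact_mod_cast Nat.pos_of_ne_zero hN0
  refine ⟨ZMod N, inferInstance, fun _ => 1 / N, fun _ => NK {i : ZMod N // i ∈ S} (Fintype.card E),
    fun _ => inferInstance,
    fun ω => dnf scope {i : ZMod N // i ∈ S} (Fintype.card E) en
      (fun t => φ.symm (t.1 + ω)) univ.toList, ?_, ?_, ?_, ?_, ?_, ?_⟩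
  · intro ω
    positivity
  · rw [sum_const, Finset.card_univ, ZMod.card, nsmul_eq_mul]
    field_simp
  · intro ω
    exact dnf_decomposable
  · intro ω
    have h1 := dnf_ands (scope := scope) (T := {i : ZMod N // i ∈ S}) (m := Fintype.card E)
      (en := en) (L := fun t => φ.symm (t.1 + ω)) (ts := univ.toList)
    have h2 : Nat.card {i : ZMod N // i ∈ S} = s := by
      rw [Nat.card_eq_fintype_card, Fintype.card_coe, hS]
    rw [h2] at h1
    exact_mod_cast h1
  · intro ω I h
    rw [dnf_on] at h
    obtain ⟨t, -, ht⟩ := h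
    exact ⟨_, ht⟩
  · rintro I ⟨x, hx⟩
    have h1 : ∀ ω ∈ S.image (fun i => φ x - i),
        (1 / N : ℝ) ≤ {ω | (dnf scope {i : ZMod N // i ∈ S} (Fintype.card E) en
          (fun t => φ.symm (t.1 + ω)) univ.toList).On I (dnf scope {i : ZMod N // i ∈ S}
            (Fintype.card E) en (fun t => φ.symm (t.1 + ω)) univ.toList).out}.indicator
              (fun _ => (1 / N : ℝ)) ω := by
      intro ω hω
      rw [mem_image] at hω
      obtain ⟨i, hi, rfl⟩ := hω
      rw [Set.indicator_of_mem]
      rw [Set.mem_ofPred_eq, dnf_on]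
      refine ⟨⟨i, hi⟩, Finset.mem_toList.2 (mem_univ _), fun e => ?_⟩
      have h2 : i + (φ x - i) = φ x := by ring
      rw [h2, Equiv.symm_apply_apply]
      exact hx e
    have h3 : (S.image fun i => φ x - i).card = s := by
      rw [card_image_of_injective _ (fun a b h => by simpa using h), hS]
    calc (s : ℝ) / (Fintype.card D : ℝ) ^ Fintype.card V
        = ∑ _ω ∈ S.image (fun i => φ x - i), (1 / N : ℝ) := by
          rw [sum_const, h3, nsmul_eq_mul, hNR]; ring
      _ ≤ _ := sum_le_sum h1
      _ ≤ _ := sum_le_univ_sum_of_nonneg fun ω => Set.indicator_nonneg (fun _ _ => by positivity) _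

end Pool.Agent.V7H42.TW
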